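import Pool.Agent.TMX.Stmts2

/-!
# TMX, row GAPB: the structure of the ball of a bad peak (after row GAPS of helper77)
-/

set_option autoImplicit false

namespace Pool.Agent.TMX.H60

open Finset Pool.Agent.TMX
open Pool.Agent.Helper51_Max (I IsMax)

theorem I_eq (N v r : ℕ) : I N v r = Ico (v - r) (min (v + r) N + 1) := by
  ext t
  unfold Pool.Agent.Helper51_Max.I
  rw [mem_Icc, mem_Ico]
  omega

theorem mem_I' {N v r i : ℕ} : i ∈ I N v r ↔ v - r ≤ i ∧ i ≤ v + r ∧ i ≤ N := by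
  unfold Pool.Agent.Helper51_Max.I
  rw [mem_Icc]
  omega

theorem cardI_pos {N v r : ℕ} (hv : v ≤ N) : (0 : ℝ) < ((I N v r).card : ℝ) := by
  have : v ∈ I N v r := mem_I'.2 ⟨by omega, by omega, hv⟩
  exact_mod_cast Finset.card_pos.2 ⟨v, this⟩

/-- **GAPB** -/
theorem gapB : GapB := by
  intro hTan N g M hM y z z' r hyz hzz' hz'N hy hz' hopt hg
  have hzN : z ≤ N := by omega
  have hyN : y ≤ N := by omega
  obtain ⟨hT1, hT2⟩ := hTan N g M hM
  have hcz := cardI_pos (r := r) hzN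
  obtain ⟨m, hmz, hmy, hmz', hg⟩ : ∃ m, m < M z ∧ M y ≤ m ∧ M z' ≤ m ∧
      ∀ i, y ≤ i → i ≤ z' → g i ≤ m := by
    have hne : (insert (M y) (insert (M z') ((Icc y z').image g))).Nonempty :=
      ⟨M y, mem_insert_self _ _⟩
    refine ⟨(insert (M y) (insert (M z') ((Icc y z').image g))).max' hne, ?_, ?_, ?_, ?_⟩
    · rw [Finset.max'_lt_iff]
      intro t ht
      rw [mem_insert, mem_insert, mem_image] at ht
      rcases ht with rfl | rfl | ⟨i, hi, rfl⟩
      · exact hy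
      · exact hz'
      · rw [mem_Icc] at hi
        exact hg i hi.1 hi.2
    · exact le_max' _ _ (mem_insert_self _ _)
    · exact le_max' _ _ (mem_insert_of_mem (mem_insert_self _ _))
    · intro i h1 h2
      exact le_max' _ _ (mem_insert_of_mem (mem_insert_of_mem
        (mem_image_of_mem g (mem_Icc.2 ⟨h1, h2⟩))))
  -- (a)
  have ha1 : r < z := by
    by_contra hr
    have e : I N y (z + r - y) = I N z r := by
      ext t
      rw [mem_I', mem_I']
      omega
    have h1 := hM.le y hyN (z + r - y)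
    rw [e, ← hopt] at h1
    have h2 := le_of_mul_le_mul_right h1 hcz
    linarith
  have ha2 : z + r < N := by
    by_contra hr
    have e : I N z' (z' + r - z) = I N z r := by
      ext t
      rw [mem_I', mem_I']
      omega
    have h1 := hM.le z' hz'N (z' + r - z)
    rw [e, ← hopt] at h1
    have h2 := le_of_mul_le_mul_right h1 hcz
    linarith
  -- (b)
  have hb1 : z' ≤ z + r := by
    by_contra hr
    by_cases h : z ≤ y + r
    · obtain ⟨i, hi, h1, h2⟩ := hT2 z y r hyz.le hzN h hopt hy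
      rw [mem_I'] at hi
      have h3 := hg i (by omega) (by omega)
      linarith
    · have h1 : ∑ i ∈ I N z r, g i ≤ ((I N z r).card : ℝ) * m := by
        rw [← nsmul_eq_mul]
        refine sum_le_card_nsmul _ _ _ fun i hi => ?_
        rw [mem_I'] at hi
        exact hg i (by omega) (by omega)
      rw [← hopt, mul_comm] at h1
      have h2 := le_of_mul_le_mul_left h1 hcz
      linarith
  have hb2 : z ≤ y + r := by
    by_contra hr
    obtain ⟨i, hi, h1, h2⟩ := hT1 z z' r hzz'.le hz'N hb1 hopt hz'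
    rw [mem_I'] at hi
    have h3 := hg i (by omega) (by omega)
    linarith
  -- (c)
  have hc1 : ∃ i, z ≤ i + r ∧ i < y ∧ i + r + z < 2 * z' ∧ M z < g i := by
    obtain ⟨i, hi, h1, h2⟩ := hT1 z z' r hzz'.le hz'N hb1 hopt hz'
    rw [mem_I'] at hi
    refine ⟨i, by omega, ?_, h1, h2⟩
    by_contra h3
    have h4 := hg i (by omega) (by omega)
    linarith
  have hc2 : ∃ j, j ≤ z + r ∧ z' < j ∧ 2 * y + r < j + z ∧ M z < g j := by
    obtain ⟨j, hj, h1, h2⟩ := hT2 z y r hyz.le hzN hb2 hopt hy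
    rw [mem_I'] at hj
    refine ⟨j, by omega, ?_, h1, h2⟩
    by_contra h3
    have h4 := hg j (by omega) (by omega)
    linarith
  refine ⟨⟨hyz, hzz', ha1, ha2, hb2, hb1, ?_, hopt, hy, hz'⟩, hc1, hc2⟩
  -- (d)
  by_contra hd
  obtain ⟨i, hi1, hi2, hi3, -⟩ := hc1
  obtain ⟨p, hp⟩ : ∃ p, p + z = 2 * y + r := ⟨2 * y + r - z, by omega⟩
  obtain ⟨q, hq⟩ : ∃ q, q + z + r = 2 * z' := ⟨2 * z' - z - r, by omega⟩
  have e0 : I N z r = Ico (z - r) (z + r + 1) := by
    rw [I_eq, min_eq_left ha2.le]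
  have e1 : I N y (y + r - z) = Ico (z - r) (p + 1) := by
    ext t
    rw [mem_I', mem_Ico]
    omega
  have e2 : I N z' (z + r - z') = Ico q (z + r + 1) := by
    ext t
    rw [mem_I', mem_Ico]
    omega
  have s1 : ∑ i ∈ Ico (z - r) (p + 1), g i ≤ M y * ((p + 1 - (z - r) : ℕ) : ℝ) := by
    have h1 := hM.le y hyN (y + r - z)
    rw [e1, Nat.card_Ico] at h1
    exact h1
  have s2 : ∑ i ∈ Ico q (z + r + 1), g i ≤ M z' * ((z + r + 1 - q : ℕ) : ℝ) := by
    have h1 := hM.le z' hz'N (z + r - z')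
    rw [e2, Nat.card_Ico] at h1
    exact h1
  have s3 : ∑ i ∈ Ico (p + 1) q, g i ≤ m * ((q - (p + 1) : ℕ) : ℝ) := by
    have h1 : ∑ i ∈ Ico (p + 1) q, g i ≤ (Ico (p + 1) q).card • m := by
      refine sum_le_card_nsmul _ _ _ fun t ht => ?_
      rw [mem_Ico] at ht
      exact hg t (by omega) (by omega)
    rw [Nat.card_Ico, nsmul_eq_mul, mul_comm] at h1
    exact h1
  have s4 : ∑ i ∈ I N z r, g i = ∑ i ∈ Ico (z - r) (p + 1), g i + ∑ i ∈ Ico (p + 1) q, g i +
      ∑ i ∈ Ico q (z + r + 1), g i := by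
    rw [e0, sum_Ico_consecutive _ (by omega) (by omega), sum_Ico_consecutive _ (by omega) (by omega)]
  have s5 : ((I N z r).card : ℝ) = ((p + 1 - (z - r) : ℕ) : ℝ) + ((q - (p + 1) : ℕ) : ℝ) +
      ((z + r + 1 - q : ℕ) : ℝ) := by
    rw [e0, Nat.card_Ico]
    have : z + r + 1 - (z - r) = (p + 1 - (z - r)) + (q - (p + 1)) + (z + r + 1 - q) := by omega
    rw [this]
    push_cast
    ring
  have n1 : (0 : ℝ) ≤ ((p + 1 - (z - r) : ℕ) : ℝ) := Nat.cast_nonneg _
  have n2 : (0 : ℝ) ≤ ((z + r + 1 - q : ℕ) : ℝ) := Nat.cast_nonneg _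
  have t1 := mul_le_mul_of_nonneg_right hmy n1
  have t2 := mul_le_mul_of_nonneg_right hmz' n2
  have t3 : M z * ((I N z r).card : ℝ) ≤ m * ((I N z r).card : ℝ) := by
    rw [hopt, s4, s5]
    have : m * (((p + 1 - (z - r) : ℕ) : ℝ) + ((q - (p + 1) : ℕ) : ℝ) +
        ((z + r + 1 - q : ℕ) : ℝ)) = m * ((p + 1 - (z - r) : ℕ) : ℝ) +
        m * ((q - (p + 1) : ℕ) : ℝ) + m * ((z + r + 1 - q : ℕ) : ℝ) := by ring
    rw [this]
    linarith
  have t4 := le_of_mul_le_mul_right t3 hcz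
  linarith

end Pool.Agent.TMX.H60
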