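import Pool.Agent.TMX.Stmts5

/-!
# TMX, row HAD: disjoint balls of the detached local maxima imply `HypA`
-/

set_option autoImplicit false

namespace Pool.Agent.TMX.H60

open Finset Pool.Agent.TMX
open Pool.Agent.Helper51_Max (I IsMax)

/-- the detached plateau of a maximum point of `M` on `[x, w]`, inside a gap -/
theorem hAd_plateau (hB : BadP) {N : ℕ} {g M : ℕ → ℝ} (hM : IsMax N g M) {p p' : ℕ}
    (hgap : Gap N g M p p') {x y w : ℕ} (hpx : p ≤ x) (hxy : x < y) (hyw : y < w) (hwp : w ≤ p')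
    (h1 : M x < M y) (h2 : M w < M y) :
    ∃ P Q, x < Q ∧ Q < w ∧ Dt N g M P Q ∧ M x < M Q ∧ M w < M Q ∧
      ∀ i, x ≤ i → i ≤ w → g i < M Q := by
  classical
  have hne : (Icc x w).Nonempty := ⟨y, mem_Icc.2 ⟨hxy.le, hyw.le⟩⟩
  obtain ⟨q0, hq0, hmax0⟩ := exists_max_image (Icc x w) M hne
  have hSne : ((Icc x w).filter fun v => M v = M q0).Nonempty := ⟨q0, mem_filter.2 ⟨hq0, rfl⟩⟩
  obtain ⟨Q, hQdef⟩ : ∃ Q, Q = ((Icc x w).filter fun v => M v = M q0).max' hSne := ⟨_, rfl⟩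
  have hQmem : Q ∈ (Icc x w).filter fun v => M v = M q0 := by
    rw [hQdef]
    exact max'_mem _ _
  have hQlast : ∀ v, x ≤ v → v ≤ w → M v = M q0 → v ≤ Q := by
    intro v hv1 hv2 hv3
    rw [hQdef]
    exact le_max' _ _ (mem_filter.2 ⟨mem_Icc.2 ⟨hv1, hv2⟩, hv3⟩)
  rw [mem_filter, mem_Icc] at hQmem
  obtain ⟨⟨hxQ, hQw⟩, hQM⟩ := hQmem
  have hmax : ∀ v, x ≤ v → v ≤ w → M v ≤ M Q := by
    intro v hv1 hv2
    rw [hQM]
    exact hmax0 v (mem_Icc.2 ⟨hv1, hv2⟩)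
  have hyQ : M y ≤ M Q := hmax y hxy.le hyw.le
  have hxQ' : x < Q := by
    rcases hxQ.lt_or_eq with h | h
    · exact h
    · exfalso
      rw [← h] at hyQ
      linarith
  have hQw' : Q < w := by
    rcases hQw.lt_or_eq with h | h
    · exact h
    · exfalso
      rw [h] at hyQ
      linarith
  have hgb : ∀ i, x ≤ i → i ≤ w → g i < M Q :=
    hB N g M hM p p' x Q w hgap hpx hxQ' hQw' hwp (h1.trans_le hyQ) (h2.trans_le hyQ) hmax
  have hTne : ((Icc x Q).filter fun u => ∀ t, u ≤ t → t ≤ Q → M t = M Q).Nonempty := by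
    refine ⟨Q, mem_filter.2 ⟨mem_Icc.2 ⟨hxQ, le_rfl⟩, fun t ht1 ht2 => ?_⟩⟩
    rw [le_antisymm ht2 ht1]
  obtain ⟨P, hPdef⟩ : ∃ P, P = ((Icc x Q).filter fun u => ∀ t, u ≤ t → t ≤ Q → M t = M Q).min' hTne :=
    ⟨_, rfl⟩
  have hPmem : P ∈ (Icc x Q).filter fun u => ∀ t, u ≤ t → t ≤ Q → M t = M Q := by
    rw [hPdef]
    exact min'_mem _ _
  have hPfirst : ∀ u, x ≤ u → u ≤ Q → (∀ t, u ≤ t → t ≤ Q → M t = M Q) → P ≤ u := by
    intro u hu1 hu2 hu3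
    rw [hPdef]
    exact min'_le _ _ (mem_filter.2 ⟨mem_Icc.2 ⟨hu1, hu2⟩, hu3⟩)
  rw [mem_filter, mem_Icc] at hPmem
  obtain ⟨⟨hxP, hPQ⟩, hPM⟩ := hPmem
  have hxP' : x < P := by
    rcases hxP.lt_or_eq with h | h
    · exact h
    · exfalso
      have h3 := hPM P le_rfl hPQ
      rw [← h] at h3
      linarith
  have hp'N : p' ≤ N := hgap.right.1
  refine ⟨P, Q, hxQ', hQw', ⟨hPQ, by omega, fun t ht1 ht2 => ⟨hPM t ht1 ht2, ?_⟩, ?_, ?_⟩,
    h1.trans_le hyQ, h2.trans_le hyQ, hgb⟩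
  · exact hgb t (by omega) (by omega)
  · intro s hs
    rcases (hmax s (by omega) (by omega)).lt_or_eq with h | h
    · exact h
    · exfalso
      have h3 : P ≤ s := by
        refine hPfirst s (by omega) (by omega) fun t ht1 ht2 => ?_
        rcases Nat.lt_or_ge t P with h4 | h4
        · have h5 : t = s := by omega
          rw [h5, h]
        · exact hPM t h4 ht2
      omega
  · intro _
    rcases (hmax (Q + 1) (by omega) (by omega)).lt_or_eq with h | h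
    · exact h
    · exfalso
      have h3 := hQlast (Q + 1) (by omega) (by omega) (h.trans hQM)
      omega

/-- **HAD** -/
theorem hAd : HAd := by
  intro hT hG hB N g M R hM hR hdis
  intro p p' hgap a b c d e hpa hab hbc hcd hde hep h1 h2 h3 h4
  have hp'N : p' ≤ N := hgap.right.1
  obtain ⟨P₁, Q₁, a1, a2, a3, a4, a5, a6⟩ :=
    hAd_plateau hB hM hgap hpa hab hbc (by omega) h1 h2
  obtain ⟨P₂, Q₂, b1, b2, b3, b4, b5, b6⟩ :=
    hAd_plateau hB hM hgap (by omega : p ≤ c) hcd hde hep h3 h4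
  obtain ⟨hgeo1, -, -⟩ := hG hT N g M hM a Q₁ c (R Q₁) a1 a2 (by omega) a4 a5 (hR P₁ Q₁ a3) a6
  obtain ⟨hgeo2, -, -⟩ := hG hT N g M hM c Q₂ e (R Q₂) b1 b2 (by omega) b4 b5 (hR P₂ Q₂ b3) b6
  have hd := hdis P₁ Q₁ P₂ Q₂ a3 b3 (by omega)
  have e1 := hgeo1.hz
  have e2 := hgeo2.hy
  have m1 : c ∈ I N Q₁ (R Q₁) := by
    unfold Pool.Agent.Helper51_Max.I
    rw [mem_Icc]
    omega
  have m2 : c ∈ I N Q₂ (R Q₂) := by
    unfold Pool.Agent.Helper51_Max.I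
    rw [mem_Icc]
    omega
  exact Finset.disjoint_left.1 hd m1 m2

end Pool.Agent.TMX.H60
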